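import Mathlib
import Pool.Agent.R362.EV.Main

/-!
# Degree two Heilbronn functions with even multiplicities at quadratic characters
-/

set_option autoImplicit false
set_option linter.unusedSectionVars false

namespace Pool.Agent.R362.CT

open Pool.Agent.H302R2 Pool.Agent.H541R3.ART Pool.Agent.W446.AS Pool.Agent.R389
  Pool.Agent.R362.EV

variable {G : Type} [Group G] [Finite G] {θ : G → ℂ}

/-- **Determinant one, quaternion free**: the function is two on a normal subgroup with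
metabelian quotient. -/
theorem exists_K (hQF : QF θ) (hθ : IsHeilbronn θ) (h1 : θ 1 = 2)
    (hd : ∀ g, dd θ g = 1) : ∃ (K : Subgroup G) (_ : K.Normal), (∀ k ∈ K, θ k = 2) ∧
      AN (G ⧸ K) := by
  classical
  have : Fact (Nat.Prime 2) := ⟨Nat.prime_two⟩
  obtain ⟨P⟩ : Nonempty (Sylow 2 G) := inferInstance
  have hs : Split (fun x : P => θ x) :=
    two_group_split _ P rfl P.isPGroup' _ (hQF.sub (P : Subgroup G).subtype
      (P : Subgroup G).subtype_injective) (hθ.comp (P : Subgroup G).subtype) h1 (fun g => hd g)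
  obtain ⟨φ, hφ, a, ha⟩ := exists_two_transfer hθ hd P hs
  -- the subgroup generated by the two-elements of the kernel
  set S : Set G := {x | (∃ k : ℕ, x ^ (2 ^ k) = 1) ∧ φ x = 1} with hS
  set N : Subgroup G := Subgroup.closure S with hN
  have hNφ : N ≤ φ.ker := by
    rw [hN, Subgroup.closure_le]
    rintro x ⟨-, hx⟩
    exact MonoidHom.mem_ker.mpr hx
  have hSN : ∀ x, (∃ k : ℕ, x ^ (2 ^ k) = 1) → φ x = 1 → x ∈ N :=
    fun x h2 h3 => Subgroup.subset_closure ⟨h2, h3⟩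
  have hNn : N.Normal := by
    refine ⟨fun n hn g => ?_⟩
    have h2 : N ≤ N.comap (MulAut.conj g).toMonoidHom := by
      nth_rewrite 1 [hN]
      rw [Subgroup.closure_le]
      rintro x ⟨⟨k, hk⟩, hx⟩
      refine hSN _ ⟨k, ?_⟩ ?_
      · change (g * x * g⁻¹) ^ (2 ^ k) = 1
        rw [conj_pow, hk, mul_one, mul_inv_cancel]
      · change φ (g * x * g⁻¹) = 1
        rw [map_mul, map_mul, hx, mul_one, map_inv, mul_inv_cancel]
    exact h2 hn
  have hN2 : ∀ n ∈ N, θ n = 2 := by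
    intro n hn
    refine kernel_two (hθ.comp N.subtype) h1 ?_ ?_ ⟨n, hn⟩
    · rw [eq_top_iff, ← Subgroup.closure_closure_coe_preimage (k := S)]
      refine Subgroup.closure_mono ?_
      rintro x ⟨⟨k, hk⟩, -⟩
      exact ⟨k, Subtype.ext hk⟩
    · rintro x k hk
      have h2 : (x : G) ^ (2 ^ k) = 1 := congrArg Subtype.val hk
      exact (hφ x k h2).mp (MonoidHom.mem_ker.mp (hNφ x.2))
  -- the kernel of the transfer modulo `N` has odd order
  set N' : Subgroup φ.ker := N.subgroupOf φ.ker with hN'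
  have hodd : Odd (Nat.card (φ.ker ⧸ N')) := by
    rw [← Nat.not_even_iff_odd, even_iff_two_dvd]
    intro h2
    obtain ⟨y, hy⟩ := exists_prime_orderOf_dvd_card' 2 h2
    obtain ⟨g, rfl⟩ := QuotientGroup.mk_surjective y
    obtain ⟨k, m, hm, hkm⟩ := exists_odd_part (orderOf (g : G)) (orderOf_pos _).ne'
    have h3 : ((g ^ m : φ.ker) : φ.ker ⧸ N') = 1 := by
      rw [QuotientGroup.eq_one_iff, hN', Subgroup.mem_subgroupOf]
      refine hSN _ ⟨k, ?_⟩ ?_
      · rw [Subgroup.coe_pow, ← pow_mul, mul_comm, ← hkm, pow_orderOf_eq_one]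
      · rw [Subgroup.coe_pow, map_pow, MonoidHom.mem_ker.mp g.2, one_pow]
    have h4 : ((g : φ.ker) : φ.ker ⧸ N') ^ m = 1 := by
      rw [← QuotientGroup.mk_pow]
      exact h3
    have h5 := orderOf_dvd_of_pow_eq_one h4
    rw [hy] at h5
    exact (Nat.not_even_iff_odd.mpr hm) (even_iff_two_dvd.mpr h5)
  have hθk : IsHeilbronn (fun x : φ.ker => θ x) := hθ.comp φ.ker.subtype
  have hc : ∀ g : φ.ker, ∀ n ∈ N', (fun x : φ.ker => θ x) (g * n) = (fun x : φ.ker => θ x) g :=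
    fun g n hn => hθk.const_on_cosets h1 N' (fun n hn => hN2 n hn) g hn
  have hsp := odd_split _ (φ.ker ⧸ N') rfl hodd (descend N' (fun x : φ.ker => θ x))
    (hθk.descend N' hc) (by
      rw [← QuotientGroup.mk_one, descend_mk hc]
      exact h1)
  obtain ⟨ρ, μ, hρμ⟩ : Split (fun x : φ.ker => θ x) := by
    have h2 := hsp.comp (QuotientGroup.mk' N')
    have h3 : (fun x : φ.ker => descend N' (fun x : φ.ker => θ x) (QuotientGroup.mk' N' x))
        = fun x : φ.ker => θ x := funext fun x => descend_mk hc x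
    rwa [h3] at h2
  simp only at hρμ
  -- its kernel
  have hρ1 : ∀ x : φ.ker, θ x = 2 ↔ (ρ x = 1 ∧ μ x = 1) := by
    intro x
    constructor
    · intro h2
      rw [hρμ] at h2
      obtain ⟨h3, h4⟩ := norm_avg_eq (norm_char ρ x) (norm_char μ x) (ζ := 1) (by norm_num)
        (by rw [h2]; norm_num)
      exact ⟨Units.ext h3, Units.ext h4⟩
    · rintro ⟨h2, h3⟩
      rw [hρμ, h2, h3, Units.val_one]
      norm_num
  set K : Subgroup G := (ρ.ker ⊓ μ.ker).map φ.ker.subtype with hKdef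
  have hmemK : ∀ x, x ∈ K ↔ φ x = 1 ∧ θ x = 2 := by
    intro x
    constructor
    · rintro ⟨y, hy, rfl⟩
      exact ⟨MonoidHom.mem_ker.mp y.2, (hρ1 y).mpr ⟨MonoidHom.mem_ker.mp hy.1,
        MonoidHom.mem_ker.mp hy.2⟩⟩
    · rintro ⟨h2, h3⟩
      obtain ⟨h4, h5⟩ := (hρ1 ⟨x, MonoidHom.mem_ker.mpr h2⟩).mp h3
      exact ⟨⟨x, MonoidHom.mem_ker.mpr h2⟩, ⟨MonoidHom.mem_ker.mpr h4,
        MonoidHom.mem_ker.mpr h5⟩, rfl⟩
  have hKn : K.Normal := by
    refine ⟨fun n hn g => ?_⟩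
    rw [hmemK] at hn ⊢
    refine ⟨?_, ?_⟩
    · rw [map_mul, map_mul, hn.1, mul_one, map_inv, mul_inv_cancel]
    · rw [hθ.conj]
      exact hn.2
  have hAN : AN (G ⧸ K) := by
    refine ⟨φ.ker.map (QuotientGroup.mk' K), Subgroup.Normal.map inferInstance _
      (QuotientGroup.mk'_surjective K), ?_, ?_⟩
    · rintro ⟨_, x, hx, rfl⟩ ⟨_, y, hy, rfl⟩
      apply Subtype.ext
      change (QuotientGroup.mk' K x) * (QuotientGroup.mk' K y)
        = (QuotientGroup.mk' K y) * (QuotientGroup.mk' K x)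
      rw [← map_mul, ← map_mul]
      apply (QuotientGroup.eq).mpr
      have hx' : x ∈ φ.ker := hx
      have hy' : y ∈ φ.ker := hy
      refine ⟨(⟨x, hx'⟩ * ⟨y, hy'⟩)⁻¹ * (⟨y, hy'⟩ * ⟨x, hx'⟩), ⟨?_, ?_⟩, rfl⟩
      · exact MonoidHom.mem_ker.mpr (by
          rw [map_mul, map_inv, map_mul, map_mul, mul_comm (ρ ⟨y, hy'⟩), inv_mul_cancel])
      · exact MonoidHom.mem_ker.mpr (by
          rw [map_mul, map_inv, map_mul, map_mul, mul_comm (μ ⟨y, hy'⟩), inv_mul_cancel])
    · apply nil_of_comm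
      intro x y
      obtain ⟨x, rfl⟩ := QuotientGroup.mk_surjective x
      obtain ⟨y, rfl⟩ := QuotientGroup.mk_surjective y
      obtain ⟨x, rfl⟩ := QuotientGroup.mk_surjective x
      obtain ⟨y, rfl⟩ := QuotientGroup.mk_surjective y
      rw [← QuotientGroup.mk_mul, ← QuotientGroup.mk_mul, ← QuotientGroup.mk_mul,
        ← QuotientGroup.mk_mul]
      apply (QuotientGroup.eq).mpr
      rw [← QuotientGroup.mk_inv, ← QuotientGroup.mk_mul]
      refine ⟨(x * y)⁻¹ * (y * x), ?_, rfl⟩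
      rw [SetLike.mem_coe, MonoidHom.mem_ker, map_mul, map_inv, map_mul, map_mul, mul_comm (φ y),
        inv_mul_cancel]
  exact ⟨K, hKn, fun k hk => ((hmemK k).mp hk).2, hAN⟩

/-- the multiplicities of the quadratic characters of subgroups are even -/
def EvenQuad {G : Type} [Group G] (θ : G → ℂ) : Prop :=
  ∀ (H : Subgroup G) (ψ : H →* ℂˣ), (∀ h, ψ h * ψ h = 1) → ∀ n : ℕ,
    ∑ᶠ h : H, θ h * (((ψ h)⁻¹ : ℂˣ) : ℂ) = (n : ℂ) * (Nat.card H : ℂ) → Even n

/-- the multiplicities of inverse characters are equal -/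
def Symm {G : Type} [Group G] (θ : G → ℂ) : Prop :=
  ∀ (H : Subgroup G) (ψ : H →* ℂˣ),
    ∑ᶠ h : H, θ h * (((ψ h)⁻¹ : ℂˣ) : ℂ) = ∑ᶠ h : H, θ h * (((ψ⁻¹ h)⁻¹ : ℂˣ) : ℂ)

/-- **The determinant is one.** -/
theorem dd_eq_one (hθ : IsHeilbronn θ) (hE : EvenQuad θ) (hS : Symm θ) (h1 : θ 1 = 2) (g : G) :
    dd θ g = 1 := by
  classical
  set C := Subgroup.zpowers g with hC
  have hc : ∀ a b : C, a * b = b * a := zpowers_comm g
  obtain ⟨ψ, φ, hψ⟩ := (hθ.comp C.subtype).comm_two hc h1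
  let g' : C := ⟨g, Subgroup.mem_zpowers g⟩
  have hdd : dd θ g = ((ψ g' : ℂˣ) : ℂ) * ((φ g' : ℂˣ) : ℂ) := dd_of_sum hψ g'
  have hC0 : (Nat.card C : ℂ) ≠ 0 := card_ne
  -- multiplicities
  have hm : ∀ χ : C →* ℂˣ, ∑ᶠ h : C, θ h * (((χ h)⁻¹ : ℂˣ) : ℂ)
      = (((if χ = ψ then 1 else 0) + (if χ = φ then 1 else 0) : ℕ) : ℂ) * (Nat.card C : ℂ) :=
    fun χ => BS.two_lin χ ψ φ (fun h : C => θ h) hψ
  have hs : ∀ χ : C →* ℂˣ, ((if χ = ψ then 1 else 0) + (if χ = φ then 1 else 0) : ℕ)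
      = (if χ⁻¹ = ψ then 1 else 0) + (if χ⁻¹ = φ then 1 else 0) := by
    intro χ
    have h2 := hS C χ
    rw [hm χ, hm χ⁻¹] at h2
    exact Nat.cast_injective (mul_right_cancel₀ hC0 h2)
  by_cases hp : ψ * φ = 1
  · rw [hdd, ← Units.val_mul, ← MonoidHom.mul_apply, hp, MonoidHom.one_apply, Units.val_one]
  · exfalso
    have hne1 : ψ⁻¹ ≠ φ := fun h => hp (by
      rw [← h]
      ext x
      rw [MonoidHom.mul_apply, MonoidHom.inv_apply, mul_inv_cancel, MonoidHom.one_apply])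
    have hne2 : φ⁻¹ ≠ ψ := fun h => hp (by
      rw [← h]
      ext x
      rw [MonoidHom.mul_apply, MonoidHom.inv_apply, inv_mul_cancel, MonoidHom.one_apply])
    have h2 : ψ⁻¹ = ψ := by
      by_contra hne
      have h3 := hs ψ
      rw [if_pos rfl, if_neg hne, if_neg hne1] at h3
      omega
    have h3 : φ⁻¹ = φ := by
      by_contra hne
      have h4 := hs φ
      rw [if_pos rfl, if_neg hne, if_neg hne2] at h4
      omega
    have h4 : ∀ h, ψ h * ψ h = 1 := by
      intro h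
      have h5 := DFunLike.congr_fun h2 h
      rw [MonoidHom.inv_apply] at h5
      nth_rewrite 1 [← h5]
      exact inv_mul_cancel _
    have h5 := hE C ψ h4 _ (hm ψ)
    rw [if_pos rfl] at h5
    by_cases h6 : ψ = φ
    · apply hne1
      rw [h2, h6]
    · rw [if_neg h6] at h5
      exact absurd h5 (by decide)

/-- the exponent of the elements of the cyclic subgroup of order four of the quaternion group -/
def expo : QuaternionGroup 2 → ZMod (2 * 2)
  | .a k => k
  | .xa _ => 0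

lemma mem_cyc {q : QuaternionGroup 2} (h : q ∈ Subgroup.zpowers (QuaternionGroup.a 1)) :
    q = QuaternionGroup.a (expo q) := by
  obtain ⟨k, hq⟩ := h
  change (QuaternionGroup.a 1 : QuaternionGroup 2) ^ k = _ at hq
  rcases q with i | i
  · rfl
  · exfalso
    have h2 : ∀ n : ℕ, ∃ j, (QuaternionGroup.a 1 : QuaternionGroup 2) ^ n = .a j := by
      intro n
      exact ⟨n, QuaternionGroup.a_one_pow n⟩
    obtain ⟨n, rfl | rfl⟩ := k.eq_nat_or_neg
    · rw [zpow_natCast] at hq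
      obtain ⟨j, hj⟩ := h2 n
      rw [hj] at hq
      cases hq
    · rw [zpow_neg, zpow_natCast] at hq
      obtain ⟨j, hj⟩ := h2 n
      rw [hj] at hq
      cases hq

/-- the faithful character of the cyclic subgroup of order four -/
noncomputable def kap : Subgroup.zpowers (QuaternionGroup.a 1 : QuaternionGroup 2) →* ℂˣ :=
  MonoidHom.toHomUnits
    { toFun := fun q => AddChar.zmodChar (2 * 2) (ζ := Complex.I) (by
        norm_num [Complex.I_sq, show (4 : ℕ) = 2 * 2 from rfl, pow_mul]) (expo q)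
      map_one' := by
        change AddChar.zmodChar (2 * 2) _ (0 : ZMod (2 * 2)) = 1
        rw [AddChar.map_zero_eq_one]
      map_mul' := by
        rintro ⟨x, hx⟩ ⟨y, hy⟩
        change AddChar.zmodChar (2 * 2) _ (expo (x * y))
          = AddChar.zmodChar (2 * 2) _ (expo x) * AddChar.zmodChar (2 * 2) _ (expo y)
        rw [← AddChar.map_add_eq_mul]
        congr 1
        rw [mem_cyc hx, mem_cyc hy, QuaternionGroup.a_mul_a]
        rfl }

lemma kap_val {q : QuaternionGroup 2} (h : q ∈ Subgroup.zpowers (QuaternionGroup.a 1)) :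
    ((kap ⟨q, h⟩ : ℂˣ) : ℂ) = Complex.I ^ (expo q).val := rfl

lemma quat_val {q : QuaternionGroup 2} (h : q ∈ Subgroup.zpowers (QuaternionGroup.a 1)) :
    quatChar q = ((kap ⟨q, h⟩ : ℂˣ) : ℂ) + (((kap ⟨q, h⟩)⁻¹ : ℂˣ) : ℂ) := by
  rw [Units.val_inv_eq_inv_val, kap_val]
  have h1 := mem_cyc h
  generalize expo q = k at h1
  subst h1
  have hk : k = 0 ∨ k = 1 ∨ k = 2 ∨ k = 3 := by
    clear h
    revert k
    decide
  have hI : Complex.I ^ 3 = -Complex.I := by
    rw [pow_succ, Complex.I_sq, neg_one_mul]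
  rcases hk with rfl | rfl | rfl | rfl
  · simp only [quatChar]
    rw [if_pos trivial, show (0 : ZMod (2 * 2)).val = 0 from rfl, pow_zero, inv_one]
    norm_num
  · simp only [quatChar]
    rw [if_neg (by decide), if_neg (by decide), show (1 : ZMod (2 * 2)).val = 1 from rfl, pow_one,
      Complex.inv_I, add_neg_cancel]
  · simp only [quatChar]
    rw [if_neg (by decide), if_pos trivial, show (2 : ZMod (2 * 2)).val = 2 from rfl, Complex.I_sq]
    norm_num
  · simp only [quatChar]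
    rw [if_neg (by decide), if_neg (by decide), show (3 : ZMod (2 * 2)).val = 3 from rfl, hI,
      inv_neg, Complex.inv_I, neg_neg, neg_add_cancel]

/-- **The quaternion case.** -/
theorem quat_case {U : Subgroup G} (f : U →* QuaternionGroup 2) (hf : Function.Surjective f)
    (hθf : ∀ h : U, θ h = quatChar (f h)) :
    ∃ (T : Subgroup G) (hTU : T ≤ U) (ψ : T →* ℂˣ),
      (∀ u : U, (u : G) ∈ T ↔ f u ∈ Subgroup.zpowers (QuaternionGroup.a 1)) ∧
      (∀ t : T, f ⟨t, hTU t.2⟩ = QuaternionGroup.a 1 → ((ψ t : ℂˣ) : ℂ) = Complex.I) ∧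
      ∑ᶠ t : T, θ t * (((ψ t)⁻¹ : ℂˣ) : ℂ) = ((1 : ℕ) : ℂ) * (Nat.card T : ℂ) := by
  classical
  set Z : Subgroup (QuaternionGroup 2) := Subgroup.zpowers (QuaternionGroup.a 1) with hZ
  set T : Subgroup G := (Z.comap f).map U.subtype with hT
  have hTU : T ≤ U := by
    rintro _ ⟨x, -, rfl⟩
    exact x.2
  have hmem : ∀ u : U, (u : G) ∈ T ↔ f u ∈ Z := by
    intro u
    constructor
    · rintro ⟨x, hx, hxu⟩
      have h2 : x = u := Subtype.ext hxu
      rw [← h2]
      exact hx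
    · intro h
      exact ⟨u, h, rfl⟩
  have hTZ : ∀ t : T, f (Subgroup.inclusion hTU t) ∈ Z := fun t =>
    (hmem (Subgroup.inclusion hTU t)).mp t.2
  let φ : T →* Z := (f.comp (Subgroup.inclusion hTU)).codRestrict Z hTZ
  let ψ : T →* ℂˣ := kap.comp φ
  have hval : ∀ t : T, θ t = ((ψ t : ℂˣ) : ℂ) + ((ψ⁻¹ t : ℂˣ) : ℂ) := by
    intro t
    have h2 := hθf (Subgroup.inclusion hTU t)
    change θ t = _ at h2
    rw [h2, quat_val (hTZ t)]
    rfl
  have hI : ∀ t : T, f (Subgroup.inclusion hTU t) = QuaternionGroup.a 1 →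
      ((ψ t : ℂˣ) : ℂ) = Complex.I := by
    intro t ht
    change ((kap ⟨f (Subgroup.inclusion hTU t), hTZ t⟩ : ℂˣ) : ℂ) = _
    rw [kap_val, ht]
    change Complex.I ^ (1 : ZMod (2 * 2)).val = _
    rw [show (1 : ZMod (2 * 2)).val = 1 from rfl, pow_one]
  refine ⟨T, hTU, ψ, hmem, hI, ?_⟩
  have hne : ψ ≠ ψ⁻¹ := by
    intro h
    obtain ⟨u, hu⟩ := hf (QuaternionGroup.a 1)
    have huT : (u : G) ∈ T := (hmem u).mpr (by rw [hu]; exact Subgroup.mem_zpowers _)
    have h2 := hI ⟨u, huT⟩ hu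
    have h3 := congrArg (fun x : ℂˣ => (x : ℂ)) (DFunLike.congr_fun h ⟨u, huT⟩)
    simp only [MonoidHom.inv_apply, Units.val_inv_eq_inv_val, h2, Complex.inv_I] at h3
    have h4 := congrArg Complex.im h3
    norm_num at h4
  have h2 := BS.two_lin ψ ψ ψ⁻¹ (fun u : T => θ u) hval
  rw [if_pos rfl, if_neg hne, add_zero] at h2
  exact h2

end Pool.Agent.R362.CT
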