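import Mathlib
import Pool.Agent.R362.CT.Block
import Pool.Agent.H302R2.DedekindTwo

/-!
# The orbit bound for Heilbronn functions with even multiplicities
-/

set_option autoImplicit false
set_option linter.unusedSectionVars false

namespace Pool.Agent.R362.CT

open Pool.Agent.H302R2 Matrix

/-- **The orbit bound**: if every nontrivial character of an elementary abelian two-subgroup has at
least `m` conjugates and the degree is less than `2 m`, the subgroup has full value. -/
theorem full_of_orbits {G E : Type} [Group G] [Finite G] [Group E] [Finite E] {θ : G → ℂ}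
    (hθ : IsHeilbronn θ) (hE : EvenEl θ) (i : E →* G) (hEE : ∀ e : E, e * e = 1) {r m : ℕ}
    (hr : θ 1 = r) (hlt : r < 2 * m)
    (horb : ∀ ψ : E →* ℂˣ, ψ ≠ 1 → ∃ s : Finset (E →* ℂˣ), m ≤ s.card ∧ ∀ φ ∈ s,
      ∃ (g : G) (a : E ≃* E), (∀ e, g * i e * g⁻¹ = i (a e)) ∧ ∀ e, φ e = ψ (a e)) (e : E) :
    θ (i e) = θ 1 := by
  classical
  have : Fintype E := Fintype.ofFinite E
  have hc : ∀ a b : E, a * b = b * a := by
    intro a b
    have h1 : ∀ x : E, x⁻¹ = x := fun x => inv_eq_of_mul_eq_one_left (hEE x)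
    calc a * b = (a * b)⁻¹ := (h1 _).symm
      _ = b⁻¹ * a⁻¹ := mul_inv_rev a b
      _ = b * a := by rw [h1, h1]
  obtain ⟨t, ht⟩ := (hθ.comp i).comm_multiset hc
  have hcount : ∀ ρ : E →* ℂˣ, ∑ x, θ (i x) * (((ρ x)⁻¹ : ℂˣ) : ℂ)
      = (Multiset.count ρ t : ℂ) * Nat.card E := by
    intro ρ
    rw [← count_mult t ρ, finsum_eq_sum_of_fintype]
    exact Finset.sum_congr rfl fun x _ => by rw [← ht x]
  have hcard : Multiset.card t = r := by
    have h1 := ht 1
    simp only [map_one, Units.val_one, Multiset.map_const', Multiset.sum_replicate,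
      nsmul_eq_mul, mul_one] at h1
    rw [hr] at h1
    exact_mod_cast h1.symm
  have hone : ∀ ψ ∈ t, ψ = 1 := by
    intro ψ hψ
    by_contra hne
    obtain ⟨s, hs, hs2⟩ := horb ψ hne
    have hev : Even (Multiset.count ψ t) := hE.hom hθ i hEE ψ _ (hcount ψ)
    have hpos : 0 < Multiset.count ψ t := Multiset.count_pos.mpr hψ
    have hE0 : (Nat.card E : ℂ) ≠ 0 := by exact_mod_cast Nat.card_pos.ne'
    have heq : ∀ φ ∈ s, Multiset.count φ t = Multiset.count ψ t := by
      intro φ hφ
      obtain ⟨g, a, hga, hφa⟩ := hs2 φ hφ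
      have h1 := hcount φ
      have h2 := hcount ψ
      rw [← Equiv.sum_comp a.toEquiv] at h2
      have h3 : ∑ x, θ (i x) * (((φ x)⁻¹ : ℂˣ) : ℂ)
          = ∑ x, θ (i (a.toEquiv x)) * (((ψ (a.toEquiv x))⁻¹ : ℂˣ) : ℂ) := by
        refine Finset.sum_congr rfl fun x _ => ?_
        change _ = θ (i (a x)) * (((ψ (a x))⁻¹ : ℂˣ) : ℂ)
        rw [← hφa, ← hga, hθ.conj]
      rw [h3, h2] at h1
      have h4 := mul_right_cancel₀ hE0 h1
      exact_mod_cast h4.symm
    have hle : ∑ φ ∈ s, Multiset.count φ t ≤ Multiset.card t := by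
      rw [← Multiset.sum_count_eq_card (s := s ∪ t.toFinset) (m := t) (fun a ha =>
        Finset.mem_union_right _ (Multiset.mem_toFinset.mpr ha))]
      exact Finset.sum_le_sum_of_subset Finset.subset_union_left
    rw [Finset.sum_congr rfl heq, Finset.sum_const, smul_eq_mul, hcard] at hle
    have h2 : 2 ≤ Multiset.count ψ t := by
      obtain ⟨k, hk⟩ := hev
      omega
    have h5 : m * 2 ≤ s.card * Multiset.count ψ t := Nat.mul_le_mul hs h2
    omega
  have h1 := ht e
  have h2 : (t.map fun ψ => ((ψ e : ℂˣ) : ℂ)) = t.map fun _ => (1 : ℂ) := by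
    refine Multiset.map_congr rfl fun ψ hψ => ?_
    rw [hone ψ hψ, MonoidHom.one_apply, Units.val_one]
  rw [h2, Multiset.map_const', Multiset.sum_replicate, nsmul_eq_mul, mul_one, hcard] at h1
  rw [hr]
  exact h1

end Pool.Agent.R362.CT
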