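import Mathlib
import Pool.Agent.R389.Class3
import Pool.Agent.R362.CT.Dbl
import Pool.Agent.H541R3.ART.Core

/-!
# Halves of Heilbronn characters
-/

set_option autoImplicit false
set_option linter.unusedSectionVars false

namespace Pool.Agent.R362.CT

open Pool.Agent.H302R2 Pool.Agent.H541R3.ART Pool.Agent.W446.AS Pool.Agent.R389

variable {G : Type} [Group G] [Finite G] {θ : G → ℂ}

lemma imp_index {N : Subgroup G} {a b : N →* ℂˣ} (h : Imp θ N a b) : N.index = 2 := by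
  obtain ⟨t, ht⟩ := h.nt
  rw [Subgroup.index_eq_two_iff]
  refine ⟨t, fun x => ?_⟩
  by_cases hx : x ∈ N
  · right
    refine ⟨hx, fun h2 => ht ?_⟩
    have h3 := N.mul_mem (N.inv_mem hx) h2
    rwa [inv_mul_cancel_left] at h3
  · left
    exact ⟨h.two x t hx ht, hx⟩

/-- the norm of an imprimitive character of degree two -/
lemma imp_norm [Fintype G] {N : Subgroup G} {a b : N →* ℂˣ} (h : Imp θ N a b) (hab : a ≠ b) :
    ∑ g : G, θ g * θ g⁻¹ = (Nat.card G : ℂ) := by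
  classical
  have hfin : Fintype N := Fintype.ofFinite N
  have hidx := imp_index h
  have hcard : Nat.card G = 2 * Nat.card N := by
    rw [← N.index_mul_card, hidx]
  have hsplit := Finset.sum_filter_add_sum_filter_not (Finset.univ : Finset G)
    (fun g : G => g ∈ N) (fun g => θ g * θ g⁻¹)
  have e1 : ∑ g ∈ Finset.univ.filter (fun g : G => g ∈ N), θ g * θ g⁻¹
      = ∑ n : N, θ n * θ (n : G)⁻¹ :=
    (Finset.sum_subtype (Finset.univ.filter fun g : G => g ∈ N) (p := fun g => g ∈ N)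
      (fun g => by simp) (fun g => θ g * θ g⁻¹))
  have e2 : ∑ g ∈ Finset.univ.filter (fun g : G => ¬ g ∈ N), θ g * θ g⁻¹ = 0 :=
    Finset.sum_eq_zero fun g hg => by rw [h.off g (Finset.mem_filter.mp hg).2, zero_mul]
  have h2 : ∀ n : N, θ n * θ (n : G)⁻¹
      = 2 + ((((a * b⁻¹) n : ℂˣ) : ℂ) + (((b * a⁻¹) n : ℂˣ) : ℂ)) := by
    intro n
    have h3 := h.on n
    have h4 := h.on n⁻¹
    rw [map_inv, map_inv] at h4
    change θ (n : G)⁻¹ = _ at h4
    rw [h3, h4, MonoidHom.mul_apply, MonoidHom.mul_apply, MonoidHom.inv_apply,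
      MonoidHom.inv_apply, Units.val_mul, Units.val_mul]
    have h5 : ((a n : ℂˣ) : ℂ) * (((a n)⁻¹ : ℂˣ) : ℂ) = 1 := by
      rw [← Units.val_mul, mul_inv_cancel, Units.val_one]
    have h6 : ((b n : ℂˣ) : ℂ) * (((b n)⁻¹ : ℂˣ) : ℂ) = 1 := by
      rw [← Units.val_mul, mul_inv_cancel, Units.val_one]
    linear_combination h5 + h6
  obtain ⟨n₀, hn₀⟩ : ∃ n₀, a n₀ ≠ b n₀ := by
    by_contra hcon
    push Not at hcon
    exact hab (MonoidHom.ext hcon)
  have h5 : (a * b⁻¹) n₀ ≠ 1 := by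
    rw [MonoidHom.mul_apply, MonoidHom.inv_apply]
    intro h6
    exact hn₀ (mul_inv_eq_one.mp h6)
  have h6 : (b * a⁻¹) n₀ ≠ 1 := by
    rw [MonoidHom.mul_apply, MonoidHom.inv_apply]
    intro h7
    exact hn₀ (mul_inv_eq_one.mp h7).symm
  rw [← hsplit, e1, e2, add_zero, Finset.sum_congr rfl fun n _ => h2 n, Finset.sum_add_distrib,
    Finset.sum_add_distrib, ← finsum_eq_sum_of_fintype (fun n : N => (((a * b⁻¹) n : ℂˣ) : ℂ)),
    ← finsum_eq_sum_of_fintype (fun n : N => (((b * a⁻¹) n : ℂˣ) : ℂ)),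
    sum_zpowers_eq_zero _ h5, sum_zpowers_eq_zero _ h6, Finset.sum_const, Finset.card_univ,
    nsmul_eq_mul, ← Nat.card_eq_fintype_card, hcard]
  push_cast
  ring

/-- an integral combination of irreducible characters of norm one and degree two -/
lemma theta_irr [Fintype G] (m : (G → ℂ) → ℤ) (h1 : (theta m : G → ℂ) 1 = 2)
    (hn : ∑ g : G, (theta m : G → ℂ) g * (theta m : G → ℂ) g⁻¹ = (Nat.card G : ℂ)) :
    (theta m : G → ℂ) ∈ Irr G := by
  classical
  have hG0 : (Nat.card G : ℂ) ≠ 0 := card_ne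
  -- the norm
  have h2 : ∑ χ ∈ irrF G, m χ ^ 2 = 1 := by
    have h3 : ∑ g : G, (theta m : G → ℂ) g * (theta m : G → ℂ) g⁻¹
        = ∑ χ ∈ irrF G, (m χ : ℂ) * ∑ g : G, (theta m : G → ℂ) g * χ g⁻¹ := by
      have h4 : ∀ g : G, (theta m : G → ℂ) g * (theta m : G → ℂ) g⁻¹
          = ∑ χ ∈ irrF G, (m χ : ℂ) * ((theta m : G → ℂ) g * χ g⁻¹) := by
        intro g
        have h5 : (theta m : G → ℂ) g⁻¹ = ∑ χ ∈ irrF G, (m χ : ℂ) * χ g⁻¹ := rfl
        rw [h5, Finset.mul_sum]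
        exact Finset.sum_congr rfl fun χ _ => by ring
      rw [Finset.sum_congr rfl fun g _ => h4 g, Finset.sum_comm]
      exact Finset.sum_congr rfl fun χ _ => by rw [Finset.mul_sum]
    rw [hn] at h3
    have h4 : (Nat.card G : ℂ) = ((∑ χ ∈ irrF G, m χ ^ 2 : ℤ) : ℂ) * Nat.card G := by
      refine h3.trans ?_
      push_cast
      rw [Finset.sum_mul]
      refine Finset.sum_congr rfl fun χ hχ => ?_
      rw [theta_pair m (mem_irrF.mp hχ)]
      ring
    have h5 : ((∑ χ ∈ irrF G, m χ ^ 2 : ℤ) : ℂ) = 1 := by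
      have h6 : (((∑ χ ∈ irrF G, m χ ^ 2 : ℤ) : ℂ) - 1) * Nat.card G = 0 := by
        rw [sub_mul, ← h4, one_mul, sub_self]
      rcases mul_eq_zero.mp h6 with h7 | h7
      · exact sub_eq_zero.mp h7
      · exact absurd h7 hG0
    exact_mod_cast h5
  obtain ⟨χ₀, hχ₀, hne⟩ : ∃ χ ∈ irrF G, m χ ≠ 0 := by
    by_contra hcon
    push Not at hcon
    rw [Finset.sum_eq_zero fun χ hχ => by rw [hcon χ hχ]; norm_num] at h2
    exact absurd h2 (by norm_num)
  have hzero : ∀ χ ∈ irrF G, χ ≠ χ₀ → m χ = 0 := by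
    intro χ hχ hc
    by_contra hcon
    have h3 : m χ ^ 2 + m χ₀ ^ 2 ≤ 1 := by
      rw [← h2, ← Finset.sum_pair (f := fun χ => m χ ^ 2) hc]
      refine Finset.sum_le_sum_of_subset_of_nonneg ?_ fun _ _ _ => sq_nonneg _
      intro x hx
      rw [Finset.mem_insert, Finset.mem_singleton] at hx
      rcases hx with rfl | rfl
      · exact hχ
      · exact hχ₀
    have h4 : 0 < m χ ^ 2 := by positivity
    have h5 : 0 < m χ₀ ^ 2 := by positivity
    omega
  have hval : ∀ g, (theta m : G → ℂ) g = (m χ₀ : ℂ) * χ₀ g := by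
    intro g
    change ∑ χ ∈ irrF G, (m χ : ℂ) * χ g = _
    rw [Finset.sum_eq_single χ₀]
    · intro χ hχ hc
      rw [hzero χ hχ hc, Int.cast_zero, zero_mul]
    · intro h
      exact absurd hχ₀ h
  have hsq : m χ₀ ^ 2 = 1 := by
    rw [← h2, Finset.sum_eq_single χ₀]
    · intro χ hχ hc
      rw [hzero χ hχ hc]
      norm_num
    · intro h
      exact absurd hχ₀ h
  obtain ⟨d, hd0, hd⟩ := irr_deg_pos (mem_irrF.mp hχ₀)
  have h3 := hval 1
  rw [h1, hd] at h3
  have h4 : (2 : ℤ) = m χ₀ * d := by exact_mod_cast h3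
  have h5 : m χ₀ = 1 := by
    have h7 : (m χ₀ - 1) * (m χ₀ + 1) = 0 := by linear_combination hsq
    rcases mul_eq_zero.mp h7 with h | h
    · omega
    · have h8 : m χ₀ = -1 := by omega
      rw [h8] at h4
      omega
  have h6 : (theta m : G → ℂ) = χ₀ := by
    funext g
    rw [hval, h5, Int.cast_one, one_mul]
  rw [h6]
  exact mem_irrF.mp hχ₀

end Pool.Agent.R362.CT
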