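import Mathlib
import Pool.Agent.R362.CT.Orb

/-!
# Heilbronn functions on `SL₂` in characteristic two with even multiplicities
-/

set_option autoImplicit false
set_option linter.unusedSectionVars false

namespace Pool.Agent.R362.CT

open Pool.Agent.H302R2 Matrix

variable {F : Type} [Field F] [Fintype F] [CharP F 2]

/-- the upper unipotent matrices -/
def upper (F : Type) [Field F] : Multiplicative F →* SpecialLinearGroup (Fin 2) F where
  toFun x := ⟨!![1, x.toAdd; 0, 1], by rw [det_fin_two_of]; ring⟩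
  map_one' := by
    apply Subtype.ext
    change !![1, (0 : F); 0, 1] = 1
    exact one_fin_two.symm
  map_mul' x y := by
    apply Subtype.ext
    change !![1, x.toAdd + y.toAdd; 0, 1] = !![1, x.toAdd; 0, 1] * !![1, y.toAdd; 0, 1]
    rw [mul_fin_two]
    simp [add_comm]

/-- the diagonal matrices -/
def dg (a : Fˣ) : SpecialLinearGroup (Fin 2) F :=
  ⟨!![(a : F), 0; 0, ((a⁻¹ : Fˣ) : F)], by rw [det_fin_two_of, mul_zero, sub_zero, Units.mul_inv]⟩

lemma mat_eq {a b c d a' b' c' d' : F} (h1 : a = a') (h2 : b = b') (h3 : c = c') (h4 : d = d') :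
    !![a, b; c, d] = !![a', b'; c', d'] := by
  rw [h1, h2, h3, h4]

lemma upper_val (x : F) : (upper F (Multiplicative.ofAdd x)).1 = !![1, x; 0, 1] := rfl

lemma dg_val (a : Fˣ) : (dg a).1 = !![(a : F), 0; 0, ((a⁻¹ : Fˣ) : F)] := rfl

/-- conjugation by a diagonal matrix -/
lemma dg_upper (a : Fˣ) (x : F) : dg a * upper F (Multiplicative.ofAdd x) * (dg a)⁻¹
    = upper F (Multiplicative.ofAdd ((a : F) ^ 2 * x)) := by
  rw [mul_inv_eq_iff_eq_mul]
  apply Subtype.ext
  change (dg a).1 * (upper F (Multiplicative.ofAdd x)).1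
    = (upper F (Multiplicative.ofAdd ((a : F) ^ 2 * x))).1 * (dg a).1
  rw [upper_val, upper_val, dg_val, mul_fin_two, mul_fin_two]
  have h : (a : F) * ((a⁻¹ : Fˣ) : F) = 1 := a.mul_inv
  generalize ((a⁻¹ : Fˣ) : F) = b at h
  generalize (a : F) = a at h
  apply mat_eq
  · ring
  · linear_combination -a * x * h
  · ring
  · ring

lemma el (g : SpecialLinearGroup (Fin 2) F) : ∃ a b c d : F, a * d - b * c = 1 ∧
    ((g : SpecialLinearGroup (Fin 2) F) : Matrix (Fin 2) (Fin 2) F) = !![a, b; c, d] := by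
  refine ⟨g.1 0 0, g.1 0 1, g.1 1 0, g.1 1 1, ?_, eta_fin_two g.1⟩
  rw [← det_fin_two]
  exact g.2

lemma sq_of_trace {g : SpecialLinearGroup (Fin 2) F} {a b c : F} (hd : a * a - b * c = 1)
    (hg : ((g : SpecialLinearGroup (Fin 2) F) : Matrix (Fin 2) (Fin 2) F) = !![a, b; c, a]) :
    g * g = 1 := by
  apply Subtype.ext
  change g.1 * g.1 = 1
  rw [hg, mul_fin_two, one_fin_two]
  have h2 : (2 : F) = 0 := CharTwo.two_eq_zero
  apply mat_eq
  · linear_combination hd + b * c * h2
  · linear_combination a * b * h2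
  · linear_combination a * c * h2
  · linear_combination hd + b * c * h2

/-- matrices with equal diagonal entries are conjugate to upper unipotent ones -/
lemma conj_upper {g : SpecialLinearGroup (Fin 2) F} {a b c : F} (hd : a * a - b * c = 1)
    (hg : ((g : SpecialLinearGroup (Fin 2) F) : Matrix (Fin 2) (Fin 2) F) = !![a, b; c, a]) :
    ∃ (h : SpecialLinearGroup (Fin 2) F) (x : F), g = h * upper F (Multiplicative.ofAdd x) * h⁻¹ := by
  have h2 : (2 : F) = 0 := CharTwo.two_eq_zero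
  by_cases hc : c = 0
  · subst hc
    have h3 : (a - 1) ^ 2 = 0 := by linear_combination hd + (1 - a) * h2
    have h4 : a = 1 := by
      have := pow_eq_zero_iff (two_ne_zero) |>.mp h3
      exact sub_eq_zero.mp this
    subst h4
    refine ⟨1, b, ?_⟩
    rw [one_mul, inv_one, mul_one]
    exact Subtype.ext hg
  · let h : SpecialLinearGroup (Fin 2) F := ⟨!![a + 1, c⁻¹; c, 0], by
      rw [det_fin_two_of, mul_zero, zero_sub, inv_mul_cancel₀ hc]
      linear_combination -h2⟩
    refine ⟨h, c⁻¹, ?_⟩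
    rw [eq_mul_inv_iff_mul_eq]
    apply Subtype.ext
    change g.1 * !![a + 1, c⁻¹; c, 0] = !![a + 1, c⁻¹; c, 0] * !![1, c⁻¹; 0, 1]
    rw [hg, mul_fin_two, mul_fin_two]
    have hci : c * c⁻¹ = 1 := mul_inv_cancel₀ hc
    apply mat_eq
    · linear_combination hd + b * c * h2
    · linear_combination -c⁻¹ * h2
    · linear_combination a * c * h2
    · ring

/-- every element is a product of two elements of square one -/
lemma prod_two (g : SpecialLinearGroup (Fin 2) F) : ∃ s t : SpecialLinearGroup (Fin 2) F,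
    g = s * t ∧ (∃ a b c : F, a * a - b * c = 1 ∧
      ((s : SpecialLinearGroup (Fin 2) F) : Matrix (Fin 2) (Fin 2) F) = !![a, b; c, a]) ∧
    (∃ a b c : F, a * a - b * c = 1 ∧
      ((t : SpecialLinearGroup (Fin 2) F) : Matrix (Fin 2) (Fin 2) F) = !![a, b; c, a]) := by
  have h2 : (2 : F) = 0 := CharTwo.two_eq_zero
  obtain ⟨a, b, c, d, hd, hg⟩ := el g
  -- the criterion
  have key : ∀ (p q r : F) (h : p * p - q * r = 1), (p * a + q * c = r * b + p * d) →
      ∃ s t : SpecialLinearGroup (Fin 2) F,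
    g = s * t ∧ (∃ a b c : F, a * a - b * c = 1 ∧
      ((s : SpecialLinearGroup (Fin 2) F) : Matrix (Fin 2) (Fin 2) F) = !![a, b; c, a]) ∧
    (∃ a b c : F, a * a - b * c = 1 ∧
      ((t : SpecialLinearGroup (Fin 2) F) : Matrix (Fin 2) (Fin 2) F) = !![a, b; c, a]) := by
    intro p q r h htr
    let s : SpecialLinearGroup (Fin 2) F := ⟨!![p, q; r, p], by rw [det_fin_two_of]; exact h⟩
    have hs : s * s = 1 := sq_of_trace h rfl
    refine ⟨s, s * g, ?_, ⟨p, q, r, h, rfl⟩, p * a + q * c, p * b + q * d, r * a + p * c, ?_, ?_⟩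
    · rw [← mul_assoc, hs, one_mul]
    · linear_combination (p * a + q * c) * htr + (p * p - q * r) * hd + h
    · change s.1 * g.1 = _
      rw [hg]
      change !![p, q; r, p] * !![a, b; c, d] = _
      rw [mul_fin_two]
      exact mat_eq rfl rfl rfl htr.symm
  by_cases hc : c = 0
  · by_cases hb : b = 0
    · subst hc hb
      exact key 0 1 1 (by linear_combination -h2) (by ring)
    · refine key 1 0 ((a + d) / b) (by ring) ?_
      rw [div_mul_cancel₀ _ hb, hc]
      linear_combination -d * h2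
  · refine key 1 ((a + d) / c) 0 (by ring) ?_
    rw [div_mul_cancel₀ _ hc]
    linear_combination a * h2

/-- multiplication by squares -/
def sc (a : Fˣ) : Multiplicative F ≃* Multiplicative F where
  toFun x := Multiplicative.ofAdd ((a : F) ^ 2 * x.toAdd)
  invFun x := Multiplicative.ofAdd (((a⁻¹ : Fˣ) : F) ^ 2 * x.toAdd)
  left_inv x := by
    apply Multiplicative.toAdd.injective
    rw [toAdd_ofAdd, toAdd_ofAdd, ← mul_assoc, ← mul_pow, Units.inv_mul, one_pow, one_mul]
  right_inv x := by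
    apply Multiplicative.toAdd.injective
    rw [toAdd_ofAdd, toAdd_ofAdd, ← mul_assoc, ← mul_pow, Units.mul_inv, one_pow, one_mul]
  map_mul' x y := by
    apply Multiplicative.toAdd.injective
    change (a : F) ^ 2 * (x.toAdd + y.toAdd) = (a : F) ^ 2 * x.toAdd + (a : F) ^ 2 * y.toAdd
    rw [mul_add]

lemma sc_inj {ψ : Multiplicative F →* ℂˣ} (hψ : ψ ≠ 1) {a b : Fˣ}
    (h : ψ.comp (sc a).toMonoidHom = ψ.comp (sc b).toMonoidHom) : a = b := by
  by_contra hne
  apply hψ
  have hc : (a : F) ^ 2 - (b : F) ^ 2 ≠ 0 := by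
    intro h0
    have h2 : (2 : F) = 0 := CharTwo.two_eq_zero
    have h3 : ((a : F) - b) ^ 2 = 0 := by
      linear_combination h0 + ((b : F) ^ 2 - a * b) * h2
    have h4 := pow_eq_zero_iff (two_ne_zero) |>.mp h3
    exact hne (Units.ext (sub_eq_zero.mp h4))
  apply MonoidHom.ext
  intro y
  have h1 := DFunLike.congr_fun h (Multiplicative.ofAdd (((a : F) ^ 2 - (b : F) ^ 2)⁻¹ * y.toAdd))
  change ψ (Multiplicative.ofAdd ((a : F) ^ 2 * _)) = ψ (Multiplicative.ofAdd ((b : F) ^ 2 * _))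
    at h1
  rw [toAdd_ofAdd] at h1
  have h5 : y = Multiplicative.ofAdd ((a : F) ^ 2 * ((((a : F) ^ 2 - (b : F) ^ 2)⁻¹) * y.toAdd))
      * (Multiplicative.ofAdd ((b : F) ^ 2 * ((((a : F) ^ 2 - (b : F) ^ 2)⁻¹) * y.toAdd)))⁻¹ := by
    apply Multiplicative.toAdd.injective
    rw [toAdd_mul, toAdd_inv, toAdd_ofAdd, toAdd_ofAdd]
    generalize (y.toAdd : F) = z
    field_simp
    ring
  rw [h5, map_mul, map_inv, h1, mul_inv_cancel, MonoidHom.one_apply]

/-- **The threshold for `SL₂` in characteristic two.** -/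
theorem sl2_full {θ : SpecialLinearGroup (Fin 2) F → ℂ}
    (hθ : IsHeilbronn θ) (hE : EvenEl θ) {r : ℕ} (hr : θ 1 = r)
    (hlt : r < 2 * (Nat.card F - 1)) (g : SpecialLinearGroup (Fin 2) F) : θ g = θ 1 := by
  classical
  have hU : ∀ x : Multiplicative F, θ (upper F x) = θ 1 := by
    refine full_of_orbits hθ hE (upper F) ?_ hr hlt ?_
    · intro x
      apply Multiplicative.toAdd.injective
      rw [toAdd_mul, toAdd_one]
      exact CharTwo.add_self_eq_zero _
    · intro ψ hψ
      refine ⟨Finset.univ.image fun a : Fˣ => ψ.comp (sc a).toMonoidHom, ?_, ?_⟩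
      · rw [Finset.card_image_of_injective _ (fun a b h => sc_inj hψ h), Finset.card_univ,
          Fintype.card_units, Nat.card_eq_fintype_card]
      · intro φ hφ
        obtain ⟨a, -, rfl⟩ := Finset.mem_image.mp hφ
        exact ⟨dg a, sc a, fun x => dg_upper a x.toAdd, fun x => rfl⟩
  have hI : ∀ (s : SpecialLinearGroup (Fin 2) F), (∃ a b c : F, a * a - b * c = 1 ∧
      (s : Matrix (Fin 2) (Fin 2) F) = !![a, b; c, a]) → θ s = θ 1 ∧ s * s = 1 := by
    rintro s ⟨a, b, c, hd, hs⟩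
    obtain ⟨h, x, rfl⟩ := conj_upper hd hs
    refine ⟨?_, sq_of_trace hd hs⟩
    rw [hθ.conj]
    exact hU _
  obtain ⟨s, t, rfl, hs, ht⟩ := prod_two g
  obtain ⟨hs1, hs2⟩ := hI s hs
  obtain ⟨ht1, ht2⟩ := hI t ht
  exact hθ.mul_of_invol hs2 ht2 hs1 ht1

end Pool.Agent.R362.CT
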